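import Pool.Agent.H33.SM.Geo

set_option autoImplicit false
open Pool.Agent.H75.Perc Metric Set Filter Topology Pool.Agent.H7.UC Pool.Agent.H74.Tri
open Pool.Agent.H93.SM Pool.Agent.H15.SM

/-! MP_2e6055, module BD, part CF. -/

namespace Pool.Agent.H33.SM

theorem cf : CF := by
  intro U0 col0 z c U col V hU0 hI F1 F2 hF1 hF2 hcov hmid f hfV hfc hf2
  set S : Set Fc := {a | a ∈ V ∧ col a = c} with hS
  have hfS : f ∈ S := ⟨hfV, hfc⟩
  have hcell : ∀ a ∈ V, cell a ⊆ F1 ∪ F2 := fun a ha => by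
    refine Subset.trans ?_ hcov
    rw [Pool.Agent.H11.UC.closure_reg]
    exact fun p hp => Pool.Agent.H11.UC.mem_creg.2 ⟨a, (hI.disj a ha).1, hp⟩
  obtain ⟨g, hg, x, hx, hgx, hxc⟩ := hI.join f hfV hfc
  have hgS : g ∈ S := hg.mem hfS
  by_cases hgA : (cell g ∩ F2).Nonempty
  · refine ⟨g, hgS.1, hgS.2, hg.symm hfS, cell_meet hF1 hF2 (hcell g hgS.1) ?_ hgA⟩
    have hgU := (hI.disj g hgS.1).1
    obtain ⟨v, k, h⟩ := adj_edge hgx
    have hB : isB U0 (ed v k) := by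
      rw [Pool.Agent.H11.UC.isB_iff]
      rcases h with ⟨h1, h2⟩ | ⟨h1, h2⟩
      · exact Or.inl ⟨h1 ▸ hgU, h2 ▸ hx⟩
      · exact Or.inr ⟨h1 ▸ hx, h2 ▸ hgU⟩
    have hm := hmid v k hB (by
      intro a ha haU
      have hax : a = x := by
        rcases h with ⟨h1, h2⟩ | ⟨h1, h2⟩ <;> rcases ha with ha | ha
        · exact absurd (ha.trans h1.symm ▸ hgU) haU
        · exact ha.trans h2.symm
        · exact ha.trans h1.symm
        · exact absurd (ha.trans h2.symm ▸ hgU) haU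
      rw [hax]
      exact hxc)
    refine ⟨mid v k, ?_, hm⟩
    rcases h with ⟨h1, h2⟩ | ⟨h1, h2⟩
    · rw [h1]; exact mid_mem1 v k
    · rw [h2]; exact mid_mem2 v k
  · obtain ⟨a, b, h1, h2, h3, h4, h5, -⟩ := hg.exit (A := {a | (cell a ∩ F2).Nonempty}) hf2 hgA
    have h1' : Jn S f a := h1.mono inter_subset_left
    have haS : a ∈ S := h1'.mem hfS
    refine ⟨a, haS.1, haS.2, h1'.symm hfS, cell_meet hF1 hF2 (hcell a haS.1) ?_ h2⟩
    obtain ⟨p, hp1, hp2⟩ := adj_pt h5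
    refine ⟨p, hp1, ?_⟩
    rcases hcell b h3.1 hp2 with h | h
    · exact h
    · exact absurd ⟨p, hp2, h⟩ h4

end Pool.Agent.H33.SM
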