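import Pool.Agent.H33.SM.Geo

set_option autoImplicit false
open Pool.Agent.H75.Perc Metric Set Filter Topology Pool.Agent.H7.UC Pool.Agent.H74.Tri
open Pool.Agent.H93.SM Pool.Agent.H15.SM

/-! MP_2e6055, module BD, part NF. -/

namespace Pool.Agent.H33.SM

open Pool.Agent.H69.UC (dist_ctr_le)

/-- the complement of a region is not empty -/
lemma compl_reg_nonempty (U : Finset Fc) : ((reg U)ᶜ).Nonempty := by
  by_contra h
  rw [not_nonempty_iff_eq_empty, compl_empty_iff] at h
  have := Pool.Agent.H11.UC.isBounded_reg U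
  rw [h] at this
  exact NormedSpace.unbounded_univ ℝ ℂ this

/-- a face off `U` is at least as far from `z` as the distance -/
lemma dst_le {U : Finset Fc} (z : Fc) {p : ℂ} {g : Fc} (hg : g ∉ U) (hp : p ∈ cell g) :
    dst U z ≤ dist (ctr z) p := by
  apply infDist_le_dist_of_mem
  intro h
  exact hg (Pool.Agent.H11.UC.mem_reg.1 h g hp)

/-- a boundary point of `U` near `z` -/
lemma exists_frontier {U : Finset Fc} {z : Fc} (hz : z ∈ U) {r : ℝ} (h : dst U z < r) :
    ∃ p ∈ frontier (reg U), dist (ctr z) p < r := by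
  obtain ⟨w, hw, hwr⟩ := (infDist_lt_iff (compl_reg_nonempty U)).1 h
  have hzr : ctr z ∈ reg U := Pool.Agent.H11.UC.ocell_subset_reg hz (Pool.Agent.H11.UC.ctr_mem z)
  have hconn : IsPreconnected (segment ℝ (ctr z) w) := (convex_segment _ _).isPreconnected
  obtain ⟨p, hp1, hp2⟩ : (segment ℝ (ctr z) w ∩ frontier (reg U)).Nonempty := by
    have hop := Pool.Agent.H11.UC.isOpen_reg U
    by_contra hne
    rw [not_nonempty_iff_eq_empty] at hne
    obtain ⟨p, -, h3, h4⟩ := hconn (reg U) (closure (reg U))ᶜ hop isClosed_closure.isOpen_compl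
      (by
        intro q hq
        by_cases h : q ∈ reg U
        · exact Or.inl h
        · right
          intro h5
          have : q ∈ segment ℝ (ctr z) w ∩ frontier (reg U) := by
            refine ⟨hq, ?_⟩
            rw [hop.frontier_eq]
            exact ⟨h5, h⟩
          rw [hne] at this
          exact this)
      ⟨ctr z, left_mem_segment _ _ _, hzr⟩
      ⟨w, right_mem_segment _ _ _, by
        intro h5
        have : w ∈ segment ℝ (ctr z) w ∩ frontier (reg U) := by
          refine ⟨right_mem_segment _ _ _, ?_⟩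
          rw [hop.frontier_eq]
          exact ⟨h5, hw⟩
        rw [hne] at this
        exact this⟩
    exact h4 (subset_closure h3)
  refine ⟨p, hp2, lt_of_le_of_lt ?_ hwr⟩
  rw [segment_eq_image'] at hp1
  obtain ⟨t, ⟨h0, h1⟩, rfl⟩ := hp1
  rw [dist_eq_norm, dist_eq_norm]
  have e : ctr z - (ctr z + t • (w - ctr z)) = (t : ℂ) * (ctr z - w) := by
    rw [Complex.real_smul]; ring
  show ‖ctr z - (ctr z + t • (w - ctr z))‖ ≤ _
  rw [e, norm_mul, Complex.norm_real, Real.norm_eq_abs, abs_of_nonneg h0]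
  nlinarith [norm_nonneg (ctr z - w)]

theorem nf : NF := by
  intro U0 col0 z c U col V hU0 hI h100 hd
  obtain ⟨p, hp, hpd⟩ := exists_frontier hI.mem hd
  obtain ⟨⟨f1, hf1, hpf1⟩, g1, hg1, hpg1⟩ := Pool.Agent.H11.UC.mem_frontier_reg.1 hp
  have hg1U0 : g1 ∈ U0 := by
    by_contra h
    have := dst_le z h hpg1
    linarith
  have hne : g1 ≠ f1 := fun h => hg1 (h ▸ hf1)
  have hg1V : g1 ∈ V := hI.near g1 hg1U0 hg1 f1 hf1 (adj_of_pt hne hpg1 hpf1)
  obtain ⟨g, hadj, hgc, hg⟩ := hI.nbr g1 hg1V
  have hdist : dist (ctr z) (ctr g) ≤ dst U0 z / 8 + 6 := by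
    have h1 := dist_ctr_le hpg1
    have h2 := adj_dist hadj
    have h3 := dist_triangle (ctr z) p (ctr g)
    have h4 := dist_triangle p (ctr g1) (ctr g)
    linarith
  refine ⟨g, ?_, hgc, ?_⟩
  · rcases hg with h | h
    · exact h
    · have := dst_le z h (ctr_mem_cell g)
      linarith
  · rw [← dist_eq_norm, dist_comm]
    linarith

end Pool.Agent.H33.SM
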