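import Pool.Agent.H15.SM.BDI
import Pool.Agent.H69.UC.Cells
import Pool.Agent.H11.UC.Edge

set_option autoImplicit false
open Pool.Agent.H75.Perc Metric Set Filter Topology Pool.Agent.H7.UC Pool.Agent.H74.Tri
open Pool.Agent.H93.SM Pool.Agent.H15.SM

/-! MP_2e6055, module BD: adjacent faces and their common edge. -/

namespace Pool.Agent.H33.SM

open Pool.Agent.H69.UC (convex_cell segment_subset_cell1 segment_subset_cell2 mid_mem_segment
  dist_ctr_le)
open Pool.Agent.H11.UC (ctr_mem ocell_subset)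

/-- the edge between two adjacent faces -/
lemma adj_edge {f g : Fc} (h : adjF f g) : ∃ v k,
    (f = fc v (k + 1) ∧ g = fc v (k + 2)) ∨ (g = fc v (k + 1) ∧ f = fc v (k + 2)) := by
  obtain ⟨e, he⟩ := h
  refine ⟨(e.1, e.2.1, false), e.2.2, ?_⟩
  rcases he with ⟨h1, h2⟩ | ⟨h1, h2⟩
  · exact Or.inl ⟨h1.symm, h2.symm⟩
  · exact Or.inr ⟨h1.symm, h2.symm⟩

lemma mid_mem1 (v : Vx) (k : Fin 3) : mid v k ∈ cell (fc v (k + 1)) :=
  segment_subset_cell1 v k (mid_mem_segment v k)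

lemma mid_mem2 (v : Vx) (k : Fin 3) : mid v k ∈ cell (fc v (k + 2)) :=
  segment_subset_cell2 v k (mid_mem_segment v k)

/-- adjacent cells share a point -/
lemma adj_pt {f g : Fc} (h : adjF f g) : ∃ p, p ∈ cell f ∧ p ∈ cell g := by
  obtain ⟨v, k, ⟨h1, h2⟩ | ⟨h1, h2⟩⟩ := adj_edge h
  · exact ⟨mid v k, h1 ▸ mid_mem1 v k, h2 ▸ mid_mem2 v k⟩
  · exact ⟨mid v k, h2 ▸ mid_mem2 v k, h1 ▸ mid_mem1 v k⟩

/-- faces with a common point of the cells are adjacent -/
lemma adj_of_pt {f g : Fc} (hfg : f ≠ g) {p : ℂ} (h1 : p ∈ cell f) (h2 : p ∈ cell g) : adjF f g := by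
  obtain ⟨v, k, rfl, rfl⟩ := Pool.Agent.H11.UC.exists_edge hfg h1 h2
  exact adjF_fc v (by
    intro h
    have : ∀ k : Fin 3, k + 1 ≠ k + 2 := by decide
    exact this _ h)

lemma ctr_mem_cell (f : Fc) : ctr f ∈ cell f := ocell_subset f (ctr_mem f)

/-- distance of the centres of adjacent faces (not sharp) -/
lemma adj_dist {f g : Fc} (h : adjF f g) : dist (ctr f) (ctr g) ≤ 4 := by
  obtain ⟨p, h1, h2⟩ := adj_pt h
  have h3 := dist_ctr_le h1
  have h4 := dist_ctr_le h2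
  have h5 := dist_triangle_left (ctr f) (ctr g) p
  linarith

/-- a cell covered by two closed sets which meets both meets the intersection -/
lemma cell_meet {f : Fc} {F1 F2 : Set ℂ} (h1 : IsClosed F1) (h2 : IsClosed F2)
    (hc : cell f ⊆ F1 ∪ F2) (a1 : (cell f ∩ F1).Nonempty) (a2 : (cell f ∩ F2).Nonempty) :
    (cell f ∩ (F1 ∩ F2)).Nonempty :=
  isPreconnected_closed_iff.1 (convex_cell f).isPreconnected F1 F2 h1 h2 hc a1 a2

end Pool.Agent.H33.SM
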